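import Pool.Agent.Q98.VP.CKD

set_option autoImplicit false

open MeasureTheory Filter Topology Set Metric
open scoped ENNReal NNReal ContDiff Laplacian InnerProductSpace

namespace Pool.Agent.Q98.VP.CK

open Pool.Agent.Q64.VP

theorem kk_mono (N : ℕ) {D D' : ℝ} (h : D ≤ D') (t : ℝ) : kk N D t ≤ kk N D' t :=
  lintegral_mono_set (Ioo_subset_Ioo_right h)

noncomputable def Bq (N : ℕ) : ℝ≥0∞ := ∫⁻ τ in Ioi 0, W τ * ENNReal.ofReal (τ ^ ((N : ℝ) - 2))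

theorem W_int : ∫⁻ τ in Ioi 0, W τ = 1 := by
  rw [← C1 le_rfl, Φ_one (by norm_num), ENNReal.ofReal_one]

theorem Bq_le {N : ℕ} (hN : 2 ≤ N) : Bq N ≤ 1 := by
  rw [← W_int, Bq]
  apply setLIntegral_mono W_meas
  intro τ hτ
  rcases le_or_gt 1 τ with h | h
  · rw [W_zero h]; simp
  · have h2 : (0 : ℝ) ≤ (N : ℝ) - 2 := by
      have : (2 : ℝ) ≤ N := by exact_mod_cast hN
      linarith
    have : ENNReal.ofReal (τ ^ ((N : ℝ) - 2)) ≤ 1 := by
      rw [ENNReal.ofReal_le_one]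
      exact Real.rpow_le_one (le_of_lt hτ) h.le h2
    calc W τ * ENNReal.ofReal (τ ^ ((N : ℝ) - 2)) ≤ W τ * 1 := by gcongr
      _ = W τ := mul_one _

theorem Bq_pos {N : ℕ} (hN : 2 ≤ N) : Bq N ≠ 0 := by
  have h2 : (0 : ℝ) ≤ (N : ℝ) - 2 := by
    have : (2 : ℝ) ≤ N := by exact_mod_cast hN
    linarith
  have h1 : ENNReal.ofReal ((1 / 2 : ℝ) ^ ((N : ℝ) - 2)) ≤ Bq N := by
    calc ENNReal.ofReal ((1 / 2 : ℝ) ^ ((N : ℝ) - 2))
        = ∫⁻ τ in Ioi 0, W τ * ENNReal.ofReal ((1 / 2 : ℝ) ^ ((N : ℝ) - 2)) := by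
          rw [lintegral_mul_const _ W_meas, W_int, one_mul]
      _ ≤ Bq N := by
          apply setLIntegral_mono
            (W_meas.mul (ENNReal.measurable_ofReal.comp (measurable_id.pow_const _)))
          intro τ hτ
          rcases le_or_gt τ (1 / 2) with h | h
          · rw [W_zero' hτ h]; simp
          · show W τ * ENNReal.ofReal ((1 / 2 : ℝ) ^ ((N : ℝ) - 2)) ≤ W τ * ENNReal.ofReal (τ ^ ((N : ℝ) - 2))
            gcongr
  have h3 : 0 < ENNReal.ofReal ((1 / 2 : ℝ) ^ ((N : ℝ) - 2)) := by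
    rw [ENNReal.ofReal_pos]; exact Real.rpow_pos_of_pos (by norm_num) _
  exact (h3.trans_le h1).ne'

theorem K0 {N : ℕ} (hN : 2 ≤ N) {ρ : ℝ} {x : E N} (hx : x ≠ 0) :
    ENNReal.ofReal (k0 N ρ x) = ∫⁻ τ in Ioi 0, W τ * kk N ρ (‖x‖ / τ) := by
  have ht : 0 < ‖x‖ := norm_pos_iff.mpr hx
  rw [← C2 N ht, k0, ofReal_integral_eq_lintegral_ofReal]
  · apply setLIntegral_congr_fun measurableSet_Ioo
    intro s hs
    show ENNReal.ofReal (Φ (‖s⁻¹ • x‖ ^ 2) * s ^ (1 - (N : ℝ))) =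
      (∫⁻ τ in Ioi (‖x‖ / s), W τ) * ENNReal.ofReal (s ^ (1 - (N : ℝ)))
    have hs0 := hs.1
    rw [ENNReal.ofReal_mul (Φ_nonneg _), ← C1 (div_nonneg ht.le hs0.le), norm_smul, norm_inv,
      Real.norm_of_nonneg hs0.le, inv_mul_eq_div]
  · apply Integrable.mono' (g := fun _ => ‖x‖ ^ (1 - (N : ℝ))) (integrable_const _)
    · apply Measurable.aestronglyMeasurable
      apply Measurable.mul
      · apply Φ_contDiff.continuous.measurable.comp
        fun_prop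
      · exact measurable_id.pow_const _
    · filter_upwards [ae_restrict_mem measurableSet_Ioo] with s hs
      have hs0 := hs.1
      rw [norm_mul, Real.norm_of_nonneg (Φ_nonneg _), Real.norm_of_nonneg (Real.rpow_nonneg hs0.le _)]
      rcases le_or_gt s ‖x‖ with h | h
      · have : 1 ≤ ‖s⁻¹ • x‖ := by
          rw [norm_smul, norm_inv, Real.norm_of_nonneg hs0.le, inv_mul_eq_div, le_div_iff₀ hs0]
          linarith
        rw [Φ_zero (by nlinarith), zero_mul]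
        exact Real.rpow_nonneg ht.le _
      · calc Φ (‖s⁻¹ • x‖ ^ 2) * s ^ (1 - (N : ℝ)) ≤ 1 * s ^ (1 - (N : ℝ)) :=
            mul_le_mul_of_nonneg_right (Φ_le_one _) (Real.rpow_nonneg hs0.le _)
          _ = s ^ (1 - (N : ℝ)) := one_mul _
          _ ≤ ‖x‖ ^ (1 - (N : ℝ)) := by
            apply Real.rpow_le_rpow_of_nonpos ht h.le
            have : (2 : ℝ) ≤ N := by exact_mod_cast hN
            linarith
  · filter_upwards [ae_restrict_mem measurableSet_Ioo] with s hs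
    exact mul_nonneg (Φ_nonneg _) (Real.rpow_nonneg hs.1.le _)

theorem wm (N : ℕ) : Measurable (fun τ : ℝ => W τ * ENNReal.ofReal (τ ^ ((N : ℝ) - 2))) :=
  W_meas.mul (ENNReal.measurable_ofReal.comp (measurable_id.pow_const _))

theorem kk_anti (N : ℕ) (D : ℝ) : Antitone (kk N D) := by
  intro a b hab
  exact lintegral_mono_set (Ioo_subset_Ioo_left hab)

theorem upper {N : ℕ} (hN : 2 ≤ N) {ρ : ℝ} (hρ : 0 < ρ) {x : E N} (hx : x ≠ 0) :
    ENNReal.ofReal (k0 N ρ x) ≤ Bq N * kk N ρ ‖x‖ := by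
  have ht : 0 < ‖x‖ := norm_pos_iff.mpr hx
  rw [K0 hN hx, Bq, ← lintegral_mul_const _ (wm N)]
  apply setLIntegral_mono ((wm N).mul_const _)
  intro τ hτ
  have hτ' : 0 < τ := hτ
  rcases le_or_gt 1 τ with h | h
  · rw [W_zero h]; simp
  · show W τ * kk N ρ (‖x‖ / τ) ≤ W τ * ENNReal.ofReal (τ ^ ((N : ℝ) - 2)) * kk N ρ ‖x‖
    rw [C3 N ht hτ', mul_assoc]
    gcongr
    exact kk_mono N (by nlinarith) _

theorem lower {N : ℕ} (hN : 2 ≤ N) {ρ : ℝ} (hρ : 0 < ρ) {x : E N} (hx : x ≠ 0) :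
    Bq N * kk N (ρ / 2) ‖x‖ ≤ ENNReal.ofReal (k0 N ρ x) := by
  have ht : 0 < ‖x‖ := norm_pos_iff.mpr hx
  rw [K0 hN hx, Bq, ← lintegral_mul_const _ (wm N)]
  apply lintegral_mono_ae
  filter_upwards [ae_restrict_mem measurableSet_Ioi] with τ hτ
  have hτ' : 0 < τ := hτ
  rcases le_or_gt τ (1 / 2) with h | h
  · rw [W_zero' hτ' h]; simp
  · rw [C3 N ht hτ', mul_assoc]
    gcongr
    exact kk_mono N (by nlinarith) _

theorem kk_split (N : ℕ) {ρ : ℝ} (hρ : 0 < ρ) (D : ℝ) : ∃ M' : ℝ≥0, ∀ t : ℝ,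
    kk N D t ≤ kk N (ρ / 2) t + M' := by
  have hfin : ∫⁻ s in Icc (ρ / 2) D, ENNReal.ofReal (s ^ (1 - (N : ℝ))) < ⊤ := by
    have hc : ContinuousOn (fun s : ℝ => s ^ (1 - (N : ℝ))) (Icc (ρ / 2) D) := by
      intro s hs
      apply ContinuousAt.continuousWithinAt
      apply Real.continuousAt_rpow_const
      left
      have := hs.1
      intro h0; rw [h0] at this; linarith
    have hi := hc.integrableOn_compact (μ := volume) isCompact_Icc
    exact (Integrable.lintegral_lt_top hi)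
  refine ⟨(∫⁻ s in Icc (ρ / 2) D, ENNReal.ofReal (s ^ (1 - (N : ℝ)))).toNNReal, fun t => ?_⟩
  rw [ENNReal.coe_toNNReal hfin.ne]
  unfold kk
  calc ∫⁻ s in Ioo t D, ENNReal.ofReal (s ^ (1 - (N : ℝ)))
      ≤ ∫⁻ s in Ioo t (ρ / 2) ∪ Icc (ρ / 2) D, ENNReal.ofReal (s ^ (1 - (N : ℝ))) := by
        apply lintegral_mono_set
        intro s hs
        rcases lt_or_ge s (ρ / 2) with h | h
        · left; exact ⟨hs.1, h⟩
        · right; exact ⟨h, hs.2.le⟩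
    _ ≤ _ := lintegral_union_le _ _ _

end Pool.Agent.Q98.VP.CK

namespace Pool.Agent.Q98.VP

open Pool.Agent.Q64.VP CK

theorem t_CK : S_CK := by
  intro N hN
  set B : ℝ := (Bq N).toReal with hB
  have hBt : Bq N ≠ ⊤ := ((Bq_le hN).trans_lt ENNReal.one_lt_top).ne
  have hB0 : 0 < B := ENNReal.toReal_pos (Bq_pos hN) hBt
  have hBe : ENNReal.ofReal B = Bq N := ENNReal.ofReal_toReal hBt
  have hinv : ENNReal.ofReal B⁻¹ * Bq N = 1 := by
    rw [← hBe, ← ENNReal.ofReal_mul (inv_nonneg.mpr hB0.le), inv_mul_cancel₀ hB0.ne', ENNReal.ofReal_one]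
  obtain ⟨Bθ, hBθ0, hBθ⟩ := θ_bdd
  refine ⟨B⁻¹ * ∫ x : E N, θ (‖x‖ ^ 2), mul_pos (inv_pos.mpr hB0) (c_pos (by omega)), ?_⟩
  intro ρ hρ
  refine ⟨fun x => B⁻¹ * k0 N ρ x, fun x => B⁻¹ * m0 N ρ x, B⁻¹ * ((ρ ^ N)⁻¹ * Bθ),
    k0_measurable.const_mul _, (k0_integrable hρ).const_mul _, ?_, ?_, ?_, ?_, ?_, ?_⟩
  · unfold m0
    apply continuous_const.mul
    apply continuous_const.mul
    exact θ_contDiff.continuous.comp (by fun_prop)
  · intro x
    constructor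
    · apply mul_nonneg (inv_nonneg.mpr hB0.le)
      apply setIntegral_nonneg measurableSet_Ioo
      intro s hs
      exact mul_nonneg (Φ_nonneg _) (Real.rpow_nonneg hs.1.le _)
    · have h1 : 0 ≤ B⁻¹ * m0 N ρ x := by
        apply mul_nonneg (inv_nonneg.mpr hB0.le)
        exact mul_nonneg (inv_nonneg.mpr (pow_nonneg hρ.le _)) (θ_nonneg _)
      show |B⁻¹ * m0 N ρ x| ≤ _
      rw [abs_of_nonneg h1]
      apply mul_le_mul_of_nonneg_left _ (inv_nonneg.mpr hB0.le)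
      exact mul_le_mul_of_nonneg_left (hBθ _) (inv_nonneg.mpr (pow_nonneg hρ.le _))
  · intro x hx
    have key : ∀ s : ℝ, 0 < s → s ≤ ρ → 1 ≤ ‖s⁻¹ • x‖ ^ 2 := by
      intro s hs hsρ
      have : 1 ≤ ‖s⁻¹ • x‖ := by
        rw [norm_smul, norm_inv, Real.norm_of_nonneg hs.le, inv_mul_eq_div, le_div_iff₀ hs]
        linarith
      nlinarith
    constructor
    · show B⁻¹ * k0 N ρ x = 0
      have : k0 N ρ x = 0 := by
        unfold k0
        apply setIntegral_eq_zero_of_forall_eq_zero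
        intro s hs
        rw [Φ_zero (key s hs.1 hs.2.le), zero_mul]
      rw [this, mul_zero]
    · show B⁻¹ * m0 N ρ x = 0
      unfold m0
      rw [θ_zero (key ρ hρ le_rfl)]; ring
  · intro D hD x hx
    show ENNReal.ofReal (B⁻¹ * k0 N ρ x) ≤ _
    rw [ENNReal.ofReal_mul (inv_nonneg.mpr hB0.le)]
    calc ENNReal.ofReal B⁻¹ * ENNReal.ofReal (k0 N ρ x)
        ≤ ENNReal.ofReal B⁻¹ * (Bq N * kk N ρ ‖x‖) := by gcongr; exact upper hN hρ hx
      _ = kk N ρ ‖x‖ := by rw [← mul_assoc, hinv, one_mul]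
      _ ≤ kk N D ‖x‖ := kk_mono N hD _
  · intro D _
    obtain ⟨M', hM'⟩ := kk_split N hρ D
    refine ⟨M', fun x hx => (hM' ‖x‖).trans ?_⟩
    gcongr
    show _ ≤ ENNReal.ofReal (B⁻¹ * k0 N ρ x)
    rw [ENNReal.ofReal_mul (inv_nonneg.mpr hB0.le)]
    calc kk N (ρ / 2) ‖x‖ = ENNReal.ofReal B⁻¹ * (Bq N * kk N (ρ / 2) ‖x‖) := by
          rw [← mul_assoc, hinv, one_mul]
      _ ≤ _ := by gcongr; exact lower hN hρ hx
  · intro ζ hζ a
    have h := B5 a hρ hζ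
    have e1 : ∀ x, B⁻¹ * k0 N ρ (x - a) * (Δ ζ) x = B⁻¹ * (k0 N ρ (x - a) * (Δ ζ) x) := fun x => by ring
    have e2 : ∀ x, B⁻¹ * m0 N ρ (x - a) * ζ x = B⁻¹ * (m0 N ρ (x - a) * ζ x) := fun x => by ring
    show ∫ x, B⁻¹ * k0 N ρ (x - a) * (Δ ζ) x = _ + ∫ x, B⁻¹ * m0 N ρ (x - a) * ζ x
    simp_rw [e1, e2]
    rw [integral_const_mul, integral_const_mul, h]
    ring

end Pool.Agent.Q98.VP
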