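import Pool.Agent.Q64.VP.Stm

set_option autoImplicit false

open MeasureTheory Filter Topology Set Metric
open scoped ENNReal NNReal ContDiff Laplacian

namespace Pool.Agent.Q98.VP.CK

open Pool.Agent.Q64.VP

/-- profile -/
noncomputable def Φ (q : ℝ) : ℝ := Real.smoothTransition ((1 - q) * (4 / 3))

noncomputable def θ (q : ℝ) : ℝ := -2 * deriv Φ q

theorem Φ_contDiff : ContDiff ℝ ∞ Φ := by
  unfold Φ
  exact Real.smoothTransition.contDiff.comp (by fun_prop)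

theorem Φ_nonneg (q : ℝ) : 0 ≤ Φ q := Real.smoothTransition.nonneg _

theorem Φ_le_one (q : ℝ) : Φ q ≤ 1 := Real.smoothTransition.le_one _

theorem Φ_zero {q : ℝ} (h : 1 ≤ q) : Φ q = 0 :=
  Real.smoothTransition.zero_of_nonpos (by nlinarith)

theorem Φ_one {q : ℝ} (h : q ≤ 1 / 4) : Φ q = 1 :=
  Real.smoothTransition.one_of_one_le (by nlinarith)

theorem Φ_antitone : Antitone Φ := by
  intro a b hab
  apply Real.smoothTransition.monotone
  nlinarith

theorem θ_contDiff : ContDiff ℝ ∞ θ := by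
  unfold θ
  exact contDiff_const.mul (ContDiff.deriv' (n := ∞) (by simpa using Φ_contDiff))

theorem θ_nonneg (q : ℝ) : 0 ≤ θ q := by
  have := Φ_antitone.deriv_nonpos (x := q)
  unfold θ; linarith

theorem θ_zero {q : ℝ} (h : 1 ≤ q) : θ q = 0 := by
  have h1 : IsLocalMin Φ q := Eventually.of_forall fun x => by rw [Φ_zero h]; exact Φ_nonneg x
  unfold θ; rw [h1.deriv_eq_zero]; ring

theorem θ_zero' {q : ℝ} (h : q ≤ 1 / 4) : θ q = 0 := by
  have h1 : IsLocalMax Φ q := Eventually.of_forall fun x => by rw [Φ_one h]; exact Φ_le_one x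
  unfold θ; rw [h1.deriv_eq_zero]; ring

theorem hasDerivAt_Φ (q : ℝ) : HasDerivAt Φ (-(θ q) / 2) q := by
  have h : DifferentiableAt ℝ Φ q := (Φ_contDiff.differentiable (by simp)) q
  have h2 := h.hasDerivAt
  have h3 : -(θ q) / 2 = deriv Φ q := by simp only [θ]; ring
  rw [h3]; exact h2

theorem θ_bdd : ∃ B : ℝ, 0 ≤ B ∧ ∀ q, θ q ≤ B := by
  obtain ⟨B, hB⟩ := (isCompact_Icc (a := (0:ℝ)) (b := 1)).exists_bound_of_continuousOn
    θ_contDiff.continuous.continuousOn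
  refine ⟨B, le_trans (norm_nonneg _) (hB 0 (by simp)), fun q => ?_⟩
  have hB0 : 0 ≤ B := le_trans (norm_nonneg _) (hB 0 (by simp))
  rcases le_or_gt 1 q with h | h
  · rw [θ_zero h]; exact hB0
  · rcases le_or_gt q 0 with h' | h'
    · rw [θ_zero' (by linarith)]; exact hB0
    · exact (le_abs_self _).trans (hB q ⟨h'.le, h.le⟩)

theorem θ_pos : ∃ q : ℝ, 0 < q ∧ q < 1 ∧ θ q ≠ 0 := by
  obtain ⟨q, hq, h⟩ := exists_deriv_eq_slope Φ (zero_lt_one) Φ_contDiff.continuous.continuousOn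
    (Φ_contDiff.differentiable (by simp)).differentiableOn
  refine ⟨q, hq.1, hq.2, ?_⟩
  unfold θ; rw [h, Φ_zero le_rfl, Φ_one (by norm_num)]; norm_num

theorem hasFDerivAt_φ {N : ℕ} (x : E N) :
    HasFDerivAt (fun x : E N => Φ (‖x‖ ^ 2)) (-(θ (‖x‖ ^ 2)) • innerSL ℝ x) x := by
  have h1 : HasFDerivAt (fun x : E N => ‖x‖ ^ 2) (2 • innerSL ℝ x) x :=
    (hasStrictFDerivAt_norm_sq x).hasFDerivAt
  have := (hasDerivAt_Φ (‖x‖ ^ 2)).comp_hasFDerivAt x h1
  have e : (-(θ (‖x‖ ^ 2)) • innerSL ℝ x : E N →L[ℝ] ℝ) = (-θ (‖x‖ ^ 2) / 2) • (2 • innerSL ℝ x) := by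
    ext v
    simp only [ContinuousLinearMap.smul_apply, innerSL_apply_apply, smul_eq_mul, nsmul_eq_mul]
    push_cast
    ring
  rw [e]; exact this

theorem φ_contDiff {N : ℕ} : ContDiff ℝ ∞ (fun x : E N => Φ (‖x‖ ^ 2)) :=
  Φ_contDiff.comp (contDiff_norm_sq ℝ)

theorem Θ_contDiff {N : ℕ} : ContDiff ℝ ∞ (fun x : E N => θ (‖x‖ ^ 2)) :=
  θ_contDiff.comp (contDiff_norm_sq ℝ)

theorem Θ_supp {N : ℕ} : HasCompactSupport (fun x : E N => θ (‖x‖ ^ 2)) := by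
  apply HasCompactSupport.of_support_subset_isCompact (isCompact_closedBall (0 : E N) 1)
  intro x hx
  rw [mem_closedBall_zero_iff]
  by_contra h
  apply hx
  apply θ_zero
  nlinarith [norm_nonneg x]

theorem c_pos {N : ℕ} (hN : 1 ≤ N) : 0 < ∫ x : E N, θ (‖x‖ ^ 2) := by
  obtain ⟨q, hq0, hq1, hq⟩ := θ_pos
  apply Continuous.integral_pos_of_hasCompactSupport_nonneg_nonzero (x := (Real.sqrt q) • EuclideanSpace.single (⟨0, hN⟩ : Fin N) (1 : ℝ))
  · exact Θ_contDiff.continuous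
  · exact Θ_supp
  · intro x; exact θ_nonneg _
  · show θ (‖(Real.sqrt q) • EuclideanSpace.single (⟨0, hN⟩ : Fin N) (1 : ℝ)‖ ^ 2) ≠ 0
    rw [norm_smul, PiLp.norm_single]
    simp [Real.sq_sqrt hq0.le, hq]

end Pool.Agent.Q98.VP.CK
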