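import Pool.Agent.Q98.VP.CKA

set_option autoImplicit false

open MeasureTheory Filter Topology Set Metric
open scoped ENNReal NNReal ContDiff Laplacian InnerProductSpace

namespace Pool.Agent.Q98.VP.CK

open Pool.Agent.Q64.VP

theorem lap_eq {n : ℕ} {φ : E n → ℝ} (hφ : ContDiff ℝ ∞ φ) (y : E n) :
    (Δ φ) y = ∑ i, fderiv ℝ (fun z => fderiv ℝ φ z (EuclideanSpace.basisFun (Fin n) ℝ i)) y
        (EuclideanSpace.basisFun (Fin n) ℝ i) := by
  rw [InnerProductSpace.laplacian_eq_iteratedFDeriv_orthonormalBasis φ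
    (EuclideanSpace.basisFun (Fin n) ℝ)]
  apply Finset.sum_congr rfl
  intro i _
  rw [iteratedFDeriv_two_apply]
  have h1 : DifferentiableAt ℝ (fderiv ℝ φ) y :=
    ((hφ.fderiv_right (m := 1) (by norm_cast)).differentiable (by norm_num)) y
  have h2 : fderiv ℝ (fun z => fderiv ℝ φ z (EuclideanSpace.basisFun (Fin n) ℝ i)) y
      = (ContinuousLinearMap.apply ℝ ℝ (EuclideanSpace.basisFun (Fin n) ℝ i)).comp
        (fderiv ℝ (fderiv ℝ φ) y) := by
    have := (ContinuousLinearMap.apply ℝ ℝ (EuclideanSpace.basisFun (Fin n) ℝ i)).hasFDerivAt.comp y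
      h1.hasFDerivAt
    exact this.fderiv
  rw [h2]
  simp

theorem D_contDiff {n : ℕ} {ψ : E n → ℝ} (h : ContDiff ℝ ∞ ψ) (v : E n) :
    ContDiff ℝ ∞ (fun z => fderiv ℝ ψ z v) :=
  (h.fderiv_right (m := ∞) (by norm_cast)).clm_apply contDiff_const

theorem lap_continuous {n : ℕ} {φ : E n → ℝ} (hφ : ContDiff ℝ ∞ φ) : Continuous (Δ φ) := by
  have h : (Δ φ) = fun y => ∑ i, fderiv ℝ (fun z => fderiv ℝ φ z (EuclideanSpace.basisFun (Fin n) ℝ i)) y
        (EuclideanSpace.basisFun (Fin n) ℝ i) := by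
    ext y; exact lap_eq hφ y
  rw [h]
  exact continuous_finsetSum _ (fun i _ => (D_contDiff (D_contDiff hφ _) _).continuous)

theorem int_parts {n : ℕ} (f g : E n → ℝ) (hf : ContDiff ℝ 1 f) (hg : ContDiff ℝ 1 g)
    (hs : HasCompactSupport g) (v : E n) :
    ∫ x, fderiv ℝ f x v * g x = - ∫ x, f x * fderiv ℝ g x v := by
  have hfc : Continuous (fun x => fderiv ℝ f x v) := (hf.continuous_fderiv (by norm_num)).clm_apply continuous_const
  have hgc : Continuous (fun x => fderiv ℝ g x v) := (hg.continuous_fderiv (by norm_num)).clm_apply continuous_const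
  have hgs : HasCompactSupport (fun x => fderiv ℝ g x v) := hs.fderiv_apply (𝕜 := ℝ) v
  have : ∫ x, f x * fderiv ℝ g x v = - ∫ x, fderiv ℝ f x v * g x := by
    apply integral_mul_fderiv_eq_neg_fderiv_mul_of_integrable
    · exact (hfc.mul hg.continuous).integrable_of_hasCompactSupport hs.mul_left
    · exact (hf.continuous.mul hgc).integrable_of_hasCompactSupport hgs.mul_left
    · exact (hf.continuous.mul hg.continuous).integrable_of_hasCompactSupport hs.mul_left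
    · intro x _; exact hf.differentiable (by norm_num) x
    · intro x _; exact hg.differentiable (by norm_num) x
  linarith

/-- change of variables -/
theorem cv {N : ℕ} (a : E N) {s : ℝ} (hs : 0 < s) (H : E N → ℝ) :
    ∫ x, H (s⁻¹ • (x - a)) = s ^ N * ∫ y, H y := by
  rw [integral_sub_right_eq_self (fun x => H (s⁻¹ • x)) a, Measure.integral_comp_inv_smul]
  simp [abs_of_pos hs]

theorem cv' {N : ℕ} (a : E N) {s : ℝ} (hs : 0 < s) (G : E N → E N → ℝ) :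
    ∫ x, G (s⁻¹ • (x - a)) x = s ^ N * ∫ y, G y (a + s • y) := by
  rw [← cv a hs (fun y => G y (a + s • y))]
  congr 1
  ext x
  rw [smul_smul, mul_inv_cancel₀ hs.ne', one_smul, add_sub_cancel]

theorem supp_s {N : ℕ} (a : E N) {s : ℝ} (hs : 0 < s) (f : ℝ → ℝ) (hf : ∀ q, 1 ≤ q → f q = 0) :
    HasCompactSupport (fun x : E N => f (‖s⁻¹ • (x - a)‖ ^ 2)) := by
  apply HasCompactSupport.of_support_subset_isCompact (isCompact_closedBall a s)
  intro x hx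
  rw [mem_closedBall, dist_eq_norm]
  by_contra h
  apply hx
  apply hf
  rw [not_le] at h
  rw [norm_smul, norm_inv, Real.norm_of_nonneg hs.le]
  have : 1 ≤ s⁻¹ * ‖x - a‖ := by
    rw [inv_mul_eq_div, le_div_iff₀ hs]; linarith
  nlinarith

theorem s_contDiff {N : ℕ} (a : E N) (s : ℝ) (f : ℝ → ℝ) (hf : ContDiff ℝ ∞ f) :
    ContDiff ℝ ∞ (fun x : E N => f (‖s⁻¹ • (x - a)‖ ^ 2)) := by
  apply hf.comp
  exact (contDiff_norm_sq ℝ).comp (by fun_prop)

theorem fderiv_s {N : ℕ} (a : E N) (s : ℝ) (x v : E N) :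
    fderiv ℝ (fun x : E N => Φ (‖s⁻¹ • (x - a)‖ ^ 2)) x v =
      -(θ (‖s⁻¹ • (x - a)‖ ^ 2)) * (s⁻¹ * ⟪s⁻¹ • (x - a), v⟫_ℝ) := by
  have h1 : HasFDerivAt (fun x : E N => s⁻¹ • (x - a)) (s⁻¹ • ContinuousLinearMap.id ℝ (E N)) x :=
    ((hasFDerivAt_id x).sub_const a).const_smul s⁻¹
  have h2 := (hasFDerivAt_φ (s⁻¹ • (x - a))).comp x h1
  have h3 := h2.fderiv
  have h4 : (fun x : E N => Φ (‖s⁻¹ • (x - a)‖ ^ 2)) =
    (fun x : E N => Φ (‖x‖ ^ 2)) ∘ (fun x : E N => s⁻¹ • (x - a)) := rfl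
  rw [h4, h3]
  simp only [ContinuousLinearMap.comp_apply, smul_apply, innerSL_apply_apply, smul_eq_mul,
    ContinuousLinearMap.id_apply, inner_smul_right]

theorem B1 {N : ℕ} (a : E N) {s : ℝ} (hs : 0 < s) {ζ : E N → ℝ} (hζ : ContDiff ℝ ∞ ζ) :
    ∫ x, Φ (‖s⁻¹ • (x - a)‖ ^ 2) * (Δ ζ) x =
      s⁻¹ * ∫ x, θ (‖s⁻¹ • (x - a)‖ ^ 2) * fderiv ℝ ζ x (s⁻¹ • (x - a)) := by
  have hsupp := supp_s a hs Φ (fun q hq => Φ_zero hq)
  have hc := s_contDiff a s Φ Φ_contDiff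
  have hsupp2 := supp_s a hs θ (fun q hq => θ_zero hq)
  have hc2 := s_contDiff a s θ θ_contDiff
  have e1 : ∀ x, Φ (‖s⁻¹ • (x - a)‖ ^ 2) * (Δ ζ) x =
      ∑ i, fderiv ℝ (fun z => fderiv ℝ ζ z (EuclideanSpace.basisFun (Fin N) ℝ i)) x
        (EuclideanSpace.basisFun (Fin N) ℝ i) * Φ (‖s⁻¹ • (x - a)‖ ^ 2) := by
    intro x
    rw [lap_eq hζ, mul_comm, Finset.sum_mul]
  simp_rw [e1]
  rw [integral_finsetSum]
  · have e2 : ∀ i : Fin N, ∫ x, fderiv ℝ (fun z => fderiv ℝ ζ z (EuclideanSpace.basisFun (Fin N) ℝ i)) x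
        (EuclideanSpace.basisFun (Fin N) ℝ i) * Φ (‖s⁻¹ • (x - a)‖ ^ 2) =
        ∫ x, s⁻¹ * (θ (‖s⁻¹ • (x - a)‖ ^ 2) *
          (⟪s⁻¹ • (x - a), EuclideanSpace.basisFun (Fin N) ℝ i⟫_ℝ *
            fderiv ℝ ζ x (EuclideanSpace.basisFun (Fin N) ℝ i))) := by
      intro i
      rw [int_parts _ _ ((D_contDiff hζ _).of_le (by simp)) (hc.of_le (by simp)) hsupp, ← integral_neg]
      congr 1
      ext x
      rw [fderiv_s]
      ring
    simp_rw [e2]
    rw [← integral_finsetSum]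
    · rw [← integral_const_mul]
      congr 1
      ext x
      rw [← Finset.mul_sum, ← Finset.mul_sum]
      congr 2
      have h5 := (EuclideanSpace.basisFun (Fin N) ℝ).sum_repr' (s⁻¹ • (x - a))
      conv_rhs => rw [← h5, map_sum]
      apply Finset.sum_congr rfl
      intro i _
      rw [map_smul, smul_eq_mul, real_inner_comm]
    · intro i _
      apply Integrable.const_mul
      apply Continuous.integrable_of_hasCompactSupport
      · exact hc2.continuous.mul ((Continuous.inner (by fun_prop) continuous_const).mul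
          (D_contDiff hζ _).continuous)
      · exact hsupp2.mul_right
  · intro i _
    apply Continuous.integrable_of_hasCompactSupport
    · exact (D_contDiff (D_contDiff hζ _) _).continuous.mul hc.continuous
    · exact hsupp.mul_left

theorem pow_s (N : ℕ) {s : ℝ} (hs : 0 < s) : s ^ N * s ^ (1 - (N : ℝ)) = s := by
  rw [← Real.rpow_natCast s N, ← Real.rpow_add hs]
  simp

theorem B2 {N : ℕ} (a : E N) {s : ℝ} (hs : 0 < s) {ζ : E N → ℝ} (hζ : ContDiff ℝ ∞ ζ) :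
    ∫ x, Φ (‖s⁻¹ • (x - a)‖ ^ 2) * s ^ (1 - (N : ℝ)) * (Δ ζ) x =
      ∫ y, θ (‖y‖ ^ 2) * fderiv ℝ ζ (a + s • y) y := by
  have e1 : ∀ x, Φ (‖s⁻¹ • (x - a)‖ ^ 2) * s ^ (1 - (N : ℝ)) * (Δ ζ) x =
      s ^ (1 - (N : ℝ)) * (Φ (‖s⁻¹ • (x - a)‖ ^ 2) * (Δ ζ) x) := fun x => by ring
  simp_rw [e1]
  rw [integral_const_mul, B1 a hs hζ, cv' a hs (fun y x => θ (‖y‖ ^ 2) * fderiv ℝ ζ x y)]
  have h := pow_s N hs
  have h1 : s⁻¹ * (s ^ N * s ^ (1 - (N : ℝ))) = 1 := by rw [h, inv_mul_cancel₀ hs.ne']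
  calc s ^ (1 - (N : ℝ)) * (s⁻¹ * (s ^ N * ∫ y, θ (‖y‖ ^ 2) * fderiv ℝ ζ (a + s • y) y))
      = (s⁻¹ * (s ^ N * s ^ (1 - (N : ℝ)))) * ∫ y, θ (‖y‖ ^ 2) * fderiv ℝ ζ (a + s • y) y := by ring
    _ = _ := by rw [h1, one_mul]

end Pool.Agent.Q98.VP.CK
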