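import Pool.Agent.Q98.VP.CKB

set_option autoImplicit false

open MeasureTheory Filter Topology Set Metric
open scoped ENNReal NNReal ContDiff Laplacian InnerProductSpace

namespace Pool.Agent.Q98.VP.CK

open Pool.Agent.Q64.VP

/-- B3 -/
theorem B3 {N : ℕ} (a : E N) {ρ : ℝ} (hρ : 0 < ρ) {ζ : E N → ℝ} (hζ : ContDiff ℝ ∞ ζ) :
    ∫ s in Ioo 0 ρ, ∫ y, θ (‖y‖ ^ 2) * fderiv ℝ ζ (a + s • y) y =
      (∫ y, θ (‖y‖ ^ 2) * ζ (a + ρ • y)) - (∫ y : E N, θ (‖y‖ ^ 2)) * ζ a := by
  have hc : Continuous (fun p : ℝ × E N => θ (‖p.2‖ ^ 2) * fderiv ℝ ζ (a + p.1 • p.2) p.2) := by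
    apply (θ_contDiff.continuous.comp (by fun_prop)).mul
    have h1 : Continuous (fderiv ℝ ζ) := hζ.continuous_fderiv (by simp)
    exact (h1.comp (by fun_prop)).clm_apply continuous_snd
  have hint : Integrable (Function.uncurry fun (s : ℝ) (y : E N) =>
      θ (‖y‖ ^ 2) * fderiv ℝ ζ (a + s • y) y) ((volume.restrict (Ioo 0 ρ)).prod volume) := by
    have hsup : Function.support (Function.uncurry fun (s : ℝ) (y : E N) =>
      θ (‖y‖ ^ 2) * fderiv ℝ ζ (a + s • y) y) ⊆ (univ : Set ℝ) ×ˢ closedBall (0 : E N) 1 := by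
      rintro ⟨s, y⟩ hp
      refine ⟨mem_univ _, ?_⟩
      rw [mem_closedBall_zero_iff]
      by_contra h
      apply hp
      have : θ (‖y‖ ^ 2) = 0 := θ_zero (by nlinarith [norm_nonneg y])
      simp [Function.uncurry, this]
    rw [← integrableOn_iff_integrable_of_support_subset hsup, IntegrableOn,
      ← Measure.prod_restrict, Measure.restrict_univ, Measure.prod_restrict]
    have : IntegrableOn (Function.uncurry fun (s : ℝ) (y : E N) =>
      θ (‖y‖ ^ 2) * fderiv ℝ ζ (a + s • y) y) (Icc 0 ρ ×ˢ closedBall (0 : E N) 1)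
        (volume.prod volume) := by
      apply ContinuousOn.integrableOn_compact (isCompact_Icc.prod (isCompact_closedBall _ _))
      exact hc.continuousOn
    exact this.mono_set (prod_mono Ioo_subset_Icc_self le_rfl)
  rw [integral_integral_swap hint]
  have e1 : ∀ y : E N, ∫ s in Ioo 0 ρ, θ (‖y‖ ^ 2) * fderiv ℝ ζ (a + s • y) y =
      θ (‖y‖ ^ 2) * ζ (a + ρ • y) - θ (‖y‖ ^ 2) * ζ a := by
    intro y
    rw [integral_const_mul, ← integral_Ioc_eq_integral_Ioo, ← intervalIntegral.integral_of_le hρ.le,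
      intervalIntegral.integral_eq_sub_of_hasDerivAt (f := fun s : ℝ => ζ (a + s • y))]
    · simp; ring
    · intro s _
      have h1 : HasDerivAt (fun s : ℝ => a + s • y) y s := by
        simpa using ((hasDerivAt_id s).smul_const y).const_add a
      have h2 : HasFDerivAt ζ (fderiv ℝ ζ (a + s • y)) (a + s • y) :=
        ((hζ.differentiable (by simp)) _).hasFDerivAt
      exact h2.comp_hasDerivAt s h1
    · apply Continuous.intervalIntegrable
      have h1 : Continuous (fderiv ℝ ζ) := hζ.continuous_fderiv (by simp)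
      exact (h1.comp (by fun_prop)).clm_apply continuous_const
  simp_rw [e1]
  rw [integral_sub, integral_mul_const]
  · apply Continuous.integrable_of_hasCompactSupport
    · exact Θ_contDiff.continuous.mul (hζ.continuous.comp (by fun_prop))
    · exact Θ_supp.mul_right
  · apply Continuous.integrable_of_hasCompactSupport
    · exact Θ_contDiff.continuous.mul continuous_const
    · exact Θ_supp.mul_right

/-- unnormalised kernel -/
noncomputable def k0 (N : ℕ) (ρ : ℝ) (z : E N) : ℝ :=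
  ∫ s in Ioo 0 ρ, Φ (‖s⁻¹ • z‖ ^ 2) * s ^ (1 - (N : ℝ))

noncomputable def m0 (N : ℕ) (ρ : ℝ) (z : E N) : ℝ := (ρ ^ N)⁻¹ * θ (‖ρ⁻¹ • z‖ ^ 2)

theorem B4 {N : ℕ} (a : E N) {ρ : ℝ} (hρ : 0 < ρ) (ζ : E N → ℝ) :
    ∫ y, θ (‖y‖ ^ 2) * ζ (a + ρ • y) = ∫ x, m0 N ρ (x - a) * ζ x := by
  have h := cv' a hρ (fun y x => θ (‖y‖ ^ 2) * ζ x)
  have e : ∀ x, m0 N ρ (x - a) * ζ x = (ρ ^ N)⁻¹ * (θ (‖ρ⁻¹ • (x - a)‖ ^ 2) * ζ x) := by
    intro x; unfold m0; ring
  simp_rw [e]
  rw [integral_const_mul, h, ← mul_assoc, inv_mul_cancel₀ (pow_pos hρ N).ne', one_mul]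

theorem φ_supp {N : ℕ} : HasCompactSupport (fun x : E N => Φ (‖x‖ ^ 2)) := by
  apply HasCompactSupport.of_support_subset_isCompact (isCompact_closedBall (0 : E N) 1)
  intro x hx
  rw [mem_closedBall_zero_iff]
  by_contra h
  apply hx
  apply Φ_zero
  nlinarith [norm_nonneg x]

theorem k_int {N : ℕ} (a : E N) {ρ : ℝ} (hρ : 0 < ρ) {g : E N → ℝ} (hg : Continuous g) :
    Integrable (Function.uncurry fun (s : ℝ) (x : E N) =>
      Φ (‖s⁻¹ • (x - a)‖ ^ 2) * s ^ (1 - (N : ℝ)) * g x) ((volume.restrict (Ioo 0 ρ)).prod volume) := by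
  have hm : Measurable (Function.uncurry fun (s : ℝ) (x : E N) =>
      Φ (‖s⁻¹ • (x - a)‖ ^ 2) * s ^ (1 - (N : ℝ)) * g x) := by
    apply Measurable.mul (Measurable.mul _ _) (hg.measurable.comp measurable_snd)
    · apply Φ_contDiff.continuous.measurable.comp
      fun_prop
    · exact (measurable_fst).pow_const _
  rw [integrable_prod_iff hm.aestronglyMeasurable]
  obtain ⟨G, hG⟩ := (isCompact_closedBall a ρ).exists_bound_of_continuousOn hg.continuousOn
  constructor
  · filter_upwards [ae_restrict_mem measurableSet_Ioo] with s hs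
    show Integrable (fun x : E N => Φ (‖s⁻¹ • (x - a)‖ ^ 2) * s ^ (1 - (N : ℝ)) * g x) volume
    apply Continuous.integrable_of_hasCompactSupport
    · exact ((s_contDiff a s Φ Φ_contDiff).continuous.mul continuous_const).mul hg
    · exact ((supp_s a hs.1 Φ (fun q hq => Φ_zero hq)).mul_right).mul_right
  · apply Integrable.mono' (g := fun _ : ℝ => ρ * (G * ∫ y : E N, Φ (‖y‖ ^ 2)))
    · exact integrable_const _
    · exact hm.aestronglyMeasurable.norm.integral_prod_right'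
    · filter_upwards [ae_restrict_mem measurableSet_Ioo] with s hs
      have hs0 := hs.1
      have hG0 : 0 ≤ G := le_trans (norm_nonneg _) (hG a (mem_closedBall_self hρ.le))
      have hΦi : Integrable (fun y : E N => Φ (‖y‖ ^ 2)) :=
        φ_contDiff.continuous.integrable_of_hasCompactSupport φ_supp
      rw [Real.norm_of_nonneg (integral_nonneg fun _ => norm_nonneg _)]
      have e1 : ∀ x : E N, ‖(Function.uncurry fun (s : ℝ) (x : E N) =>
          Φ (‖s⁻¹ • (x - a)‖ ^ 2) * s ^ (1 - (N : ℝ)) * g x) (s, x)‖ =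
          s ^ (1 - (N : ℝ)) * (Φ (‖s⁻¹ • (x - a)‖ ^ 2) * ‖g x‖) := by
        intro x
        simp only [Function.uncurry]
        rw [norm_mul, norm_mul, Real.norm_of_nonneg (Φ_nonneg _),
          Real.norm_of_nonneg (Real.rpow_nonneg hs0.le _)]
        ring
      simp_rw [e1]
      rw [integral_const_mul, cv' a hs0 (fun y x => Φ (‖y‖ ^ 2) * ‖g x‖), ← mul_assoc,
        mul_comm (s ^ (1 - (N : ℝ))), pow_s N hs0]
      apply mul_le_mul hs.2.le _ (integral_nonneg fun y => mul_nonneg (Φ_nonneg _) (norm_nonneg _)) hρ.le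
      rw [← integral_const_mul]
      apply integral_mono_of_nonneg
      · exact Eventually.of_forall fun y => mul_nonneg (Φ_nonneg _) (norm_nonneg _)
      · exact hΦi.const_mul _
      · refine Eventually.of_forall fun y => ?_
        show Φ (‖y‖ ^ 2) * ‖g (a + s • y)‖ ≤ G * Φ (‖y‖ ^ 2)
        rcases le_or_gt 1 ‖y‖ with h | h
        · rw [Φ_zero (by nlinarith)]; simp
        · rw [mul_comm]
          apply mul_le_mul_of_nonneg_right _ (Φ_nonneg _)
          apply hG
          rw [mem_closedBall, dist_eq_norm, add_sub_cancel_left, norm_smul, Real.norm_of_nonneg hs0.le]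
          nlinarith [norm_nonneg y, hs.2]

theorem k0_integrable {N : ℕ} {ρ : ℝ} (hρ : 0 < ρ) : Integrable (k0 N ρ) := by
  have h := (k_int (0 : E N) hρ (g := fun _ => 1) continuous_const).integral_prod_right
  convert h using 1
  ext z
  simp [k0, Function.uncurry]

theorem k0_measurable {N : ℕ} {ρ : ℝ} : Measurable (k0 N ρ) := by
  have hm : StronglyMeasurable (Function.uncurry fun (z : E N) (s : ℝ) =>
      Φ (‖s⁻¹ • z‖ ^ 2) * s ^ (1 - (N : ℝ))) := by
    apply Measurable.stronglyMeasurable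
    apply Measurable.mul
    · apply Φ_contDiff.continuous.measurable.comp
      fun_prop
    · exact (measurable_snd).pow_const _
  exact (hm.integral_prod_right (ν := volume.restrict (Ioo 0 ρ))).measurable

/-- the identity for `k0` -/
theorem B5 {N : ℕ} (a : E N) {ρ : ℝ} (hρ : 0 < ρ) {ζ : E N → ℝ} (hζ : ContDiff ℝ ∞ ζ) :
    ∫ x, k0 N ρ (x - a) * (Δ ζ) x =
      -(∫ y : E N, θ (‖y‖ ^ 2)) * ζ a + ∫ x, m0 N ρ (x - a) * ζ x := by
  have e1 : ∀ x, k0 N ρ (x - a) * (Δ ζ) x =
      ∫ s in Ioo 0 ρ, Φ (‖s⁻¹ • (x - a)‖ ^ 2) * s ^ (1 - (N : ℝ)) * (Δ ζ) x := by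
    intro x
    rw [integral_mul_const]; rfl
  simp_rw [e1]
  rw [← integral_integral_swap (k_int a hρ (lap_continuous hζ))]
  have e2 : ∫ s in Ioo 0 ρ, ∫ x, Φ (‖s⁻¹ • (x - a)‖ ^ 2) * s ^ (1 - (N : ℝ)) * (Δ ζ) x =
      ∫ s in Ioo 0 ρ, ∫ y, θ (‖y‖ ^ 2) * fderiv ℝ ζ (a + s • y) y := by
    apply setIntegral_congr_fun measurableSet_Ioo
    intro s hs
    exact B2 a hs.1 hζ
  rw [e2, B3 a hρ hζ, B4 a hρ]
  ring

end Pool.Agent.Q98.VP.CK
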