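import Pool.Agent.Q98.VP.CKC

set_option autoImplicit false

open MeasureTheory Filter Topology Set Metric
open scoped ENNReal NNReal ContDiff Laplacian InnerProductSpace

namespace Pool.Agent.Q98.VP.CK

open Pool.Agent.Q64.VP

noncomputable def W (τ : ℝ) : ℝ≥0∞ := ENNReal.ofReal (τ * θ (τ ^ 2))

theorem W_meas : Measurable W := by
  unfold W
  apply ENNReal.measurable_ofReal.comp
  exact measurable_id.mul (θ_contDiff.continuous.measurable.comp (by fun_prop))

theorem W_zero {τ : ℝ} (h : 1 ≤ τ) : W τ = 0 := by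
  unfold W; rw [θ_zero (by nlinarith)]; simp

theorem W_zero' {τ : ℝ} (h0 : 0 < τ) (h : τ ≤ 1 / 2) : W τ = 0 := by
  unfold W; rw [θ_zero' (by nlinarith)]; simp

theorem pm (N : ℕ) : Measurable (fun s : ℝ => ENNReal.ofReal (s ^ (1 - (N : ℝ)))) :=
  ENNReal.measurable_ofReal.comp (measurable_id.pow_const _)

theorem C1 {u : ℝ} (hu : 0 ≤ u) : ENNReal.ofReal (Φ (u ^ 2)) = ∫⁻ τ in Ioi u, W τ := by
  have hd : ∀ x ∈ Ici u, HasDerivAt (fun τ : ℝ => Φ (τ ^ 2)) (-(x * θ (x ^ 2))) x := by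
    intro x _
    have h1 := (hasDerivAt_Φ (x ^ 2)).comp x (hasDerivAt_pow 2 x)
    have e : -(x * θ (x ^ 2)) = -θ (x ^ 2) / 2 * (((2 : ℕ) : ℝ) * x ^ (2 - 1)) := by
      norm_num; ring
    rw [e]; exact h1
  have hn : ∀ x ∈ Ioi u, -(x * θ (x ^ 2)) ≤ 0 := by
    intro x hx
    have : 0 ≤ x := hu.trans (le_of_lt hx)
    have := mul_nonneg this (θ_nonneg (x ^ 2))
    linarith
  have ht : Tendsto (fun τ : ℝ => Φ (τ ^ 2)) atTop (𝓝 0) := by
    apply tendsto_const_nhds.congr'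
    filter_upwards [eventually_ge_atTop (1 : ℝ)] with x hx
    rw [Φ_zero (by nlinarith)]
  have h1 := integral_Ioi_of_hasDerivAt_of_nonpos' hd hn ht
  have h2 := integrableOn_Ioi_deriv_of_nonpos' hd hn ht
  rw [integral_neg] at h1
  have h3 : ∫ x in Ioi u, x * θ (x ^ 2) = Φ (u ^ 2) := by linarith
  rw [← h3, ofReal_integral_eq_lintegral_ofReal]
  · rfl
  · exact (Integrable.neg h2).congr (Eventually.of_forall fun x => by simp)
  · filter_upwards [ae_restrict_mem measurableSet_Ioi] with x hx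
    have := hn x hx
    simp only [Pi.zero_apply]; linarith

/-- the set of the double integral -/
def S (ρ t : ℝ) : Set (ℝ × ℝ) := {p | 0 < p.1 ∧ p.1 < ρ ∧ t < p.2 * p.1}

theorem S_meas (ρ t : ℝ) : MeasurableSet (S ρ t) := by
  apply MeasurableSet.inter (measurableSet_lt measurable_const measurable_fst)
  apply MeasurableSet.inter (measurableSet_lt measurable_fst measurable_const)
  exact measurableSet_lt measurable_const (measurable_snd.mul measurable_fst)

noncomputable def ff (N : ℕ) (ρ t : ℝ) : ℝ × ℝ → ℝ≥0∞ :=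
  (S ρ t).indicator (fun p : ℝ × ℝ => W p.2 * ENNReal.ofReal (p.1 ^ (1 - (N : ℝ))))

theorem ff_meas (N : ℕ) (ρ t : ℝ) : Measurable (ff N ρ t) := by
  apply Measurable.indicator _ (S_meas ρ t)
  exact (W_meas.comp measurable_snd).mul ((pm N).comp measurable_fst)

theorem C2a (N : ℕ) {ρ t : ℝ} :
    ∫⁻ s in Ioo 0 ρ, (∫⁻ τ in Ioi (t / s), W τ) * ENNReal.ofReal (s ^ (1 - (N : ℝ))) =
      ∫⁻ s, ∫⁻ τ, ff N ρ t (s, τ) := by
  rw [← lintegral_indicator measurableSet_Ioo]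
  apply lintegral_congr
  intro s
  by_cases hs : s ∈ Ioo 0 ρ
  · rw [indicator_of_mem hs, ← lintegral_mul_const _ W_meas, ← lintegral_indicator measurableSet_Ioi]
    apply lintegral_congr
    intro τ
    have key : τ ∈ Ioi (t / s) ↔ (s, τ) ∈ S ρ t := by
      show t / s < τ ↔ (0 < s ∧ s < ρ ∧ t < τ * s)
      rw [div_lt_iff₀ hs.1]
      exact ⟨fun h => ⟨hs.1, hs.2, h⟩, fun h => h.2.2⟩
    by_cases h : (s, τ) ∈ S ρ t
    · rw [ff, indicator_of_mem h, indicator_of_mem (key.mpr h)]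
    · rw [ff, indicator_of_notMem h, indicator_of_notMem (fun h' => h (key.mp h'))]
  · rw [indicator_of_notMem hs]
    symm
    have : ∀ τ, ff N ρ t (s, τ) = 0 := by
      intro τ
      apply indicator_of_notMem
      intro h
      exact hs ⟨h.1, h.2.1⟩
    simp [this]

theorem C2b (N : ℕ) {ρ t : ℝ} (ht : 0 < t) :
    ∫⁻ τ in Ioi 0, W τ * kk N ρ (t / τ) = ∫⁻ τ, ∫⁻ s, ff N ρ t (s, τ) := by
  rw [← lintegral_indicator measurableSet_Ioi]
  apply lintegral_congr
  intro τ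
  by_cases hτ : τ ∈ Ioi 0
  · have hτ' : 0 < τ := hτ
    rw [indicator_of_mem hτ]
    unfold kk
    rw [← lintegral_const_mul _ (pm N), ← lintegral_indicator measurableSet_Ioo]
    apply lintegral_congr
    intro s
    have key : s ∈ Ioo (t / τ) ρ ↔ (s, τ) ∈ S ρ t := by
      show (t / τ < s ∧ s < ρ) ↔ (0 < s ∧ s < ρ ∧ t < τ * s)
      rw [div_lt_iff₀ hτ', mul_comm s τ]
      constructor
      · rintro ⟨h1, h2⟩
        exact ⟨(mul_pos_iff_of_pos_left hτ').mp (ht.trans h1), h2, h1⟩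
      · rintro ⟨_, h2, h1⟩
        exact ⟨h1, h2⟩
    by_cases h : (s, τ) ∈ S ρ t
    · rw [ff, indicator_of_mem h, indicator_of_mem (key.mpr h)]
    · rw [ff, indicator_of_notMem h, indicator_of_notMem (fun h' => h (key.mp h'))]
  · rw [indicator_of_notMem hτ]
    symm
    have : ∀ s, ff N ρ t (s, τ) = 0 := by
      intro s
      apply indicator_of_notMem
      intro h
      apply hτ
      exact (mul_pos_iff_of_pos_right h.1).mp (ht.trans h.2.2)
    simp [this]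

theorem C2 (N : ℕ) {ρ t : ℝ} (ht : 0 < t) :
    ∫⁻ s in Ioo 0 ρ, (∫⁻ τ in Ioi (t / s), W τ) * ENNReal.ofReal (s ^ (1 - (N : ℝ))) =
      ∫⁻ τ in Ioi 0, W τ * kk N ρ (t / τ) := by
  rw [C2a, C2b N ht]
  exact lintegral_lintegral_swap (f := fun s τ => ff N ρ t (s, τ)) (ff_meas N ρ t).aemeasurable

theorem scale {τ : ℝ} (hτ : 0 < τ) {g : ℝ → ℝ≥0∞} (hg : Measurable g) :
    ∫⁻ s, g s = ENNReal.ofReal τ * ∫⁻ s, g (τ * s) := by
  have h := Real.smul_map_volume_mul_left hτ.ne'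
  rw [abs_of_pos hτ] at h
  conv_lhs => rw [← h]
  rw [lintegral_smul_measure, smul_eq_mul, lintegral_map hg (by fun_prop)]

theorem C3 (N : ℕ) {ρ t τ : ℝ} (ht : 0 < t) (hτ : 0 < τ) :
    kk N ρ (t / τ) = ENNReal.ofReal (τ ^ ((N : ℝ) - 2)) * kk N (τ * ρ) t := by
  have h1 : kk N (τ * ρ) t = ENNReal.ofReal τ * (ENNReal.ofReal (τ ^ (1 - (N : ℝ))) * kk N ρ (t / τ)) := by
    unfold kk
    rw [← lintegral_indicator measurableSet_Ioo, scale hτ ((pm N).indicator measurableSet_Ioo)]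
    congr 1
    rw [← lintegral_const_mul _ (pm N), ← lintegral_indicator measurableSet_Ioo]
    apply lintegral_congr
    intro s
    have key : s ∈ Ioo (t / τ) ρ ↔ τ * s ∈ Ioo t (τ * ρ) := by
      show (t / τ < s ∧ s < ρ) ↔ (t < τ * s ∧ τ * s < τ * ρ)
      rw [div_lt_iff₀ hτ, mul_comm s τ, mul_lt_mul_iff_right₀ hτ]
    by_cases h : s ∈ Ioo (t / τ) ρ
    · rw [indicator_of_mem h, indicator_of_mem (key.mp h), Real.mul_rpow hτ.le ((div_pos ht hτ).trans h.1).le,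
        ENNReal.ofReal_mul (Real.rpow_nonneg hτ.le _)]
    · rw [indicator_of_notMem h, indicator_of_notMem (fun h' => h (key.mpr h'))]
  rw [h1, ← mul_assoc, ← mul_assoc, ← ENNReal.ofReal_mul (Real.rpow_nonneg hτ.le _),
    ← ENNReal.ofReal_mul (mul_nonneg (Real.rpow_nonneg hτ.le _) hτ.le)]
  have : τ ^ ((N : ℝ) - 2) * τ * τ ^ (1 - (N : ℝ)) = 1 := by
    have e1 : τ ^ ((N : ℝ) - 2) * τ = τ ^ ((N : ℝ) - 1) := by
      rw [← Real.rpow_add_one hτ.ne']; congr 1; ring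
    rw [e1, ← Real.rpow_add hτ]
    simp
  rw [this, ENNReal.ofReal_one, one_mul]

end Pool.Agent.Q98.VP.CK
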